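import Pool.Agent.R52.SteffenPos
import Pool.Agent.R52.SteffenEx

/-!
# Steffen's girth bound and ring subgraphs
-/

set_option autoImplicit false

namespace Pool.Agent.Results.MP_7ce1ef_co.RingSubgraph

open Pool.Agent.Results.MP_633d19_co.SmallDegree
open Pool.Agent.Results.MP_633d19_co.SmallDegree.MGraph
open Pool.Agent.R52.SteffenDefs
open Pool.Agent.R52.SteffenPos
open Pool.Agent.R52.SteffenEx

/-- There is a graph of girth `g` and maximum multiplicity `μ` which attains Steffen's bound and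
has no ring graph of order `g` with the same chromatic index as a subgraph. -/
def Exceptional (g μ : ℕ) : Prop :=
  ∃ (V E : Type) (_ : Finite V) (_ : Finite E) (G : MGraph V E) (Δ χ : ℕ),
    G.HasGirth g ∧ G.HasMaxMult μ ∧ G.HasMaxDegree Δ ∧ G.HasChromaticIndex χ ∧
    χ = Δ + ⌈(μ : ℚ) / ((g / 2 : ℕ) : ℚ)⌉₊ ∧
    ¬ ∃ (W F : Type) (R : MGraph W F), IsRing R g ∧ IsSub R G ∧ R.HasChromaticIndex χ

theorem ceil_eq {μ p T : ℕ} (hp : 1 ≤ p) :
    ⌈(μ : ℚ) / ((p : ℕ) : ℚ)⌉₊ = T + 1 ↔ p * T < μ ∧ μ ≤ p * (T + 1) := by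
  have hp0 : (0 : ℚ) < (p : ℚ) := by exact_mod_cast hp
  rw [Nat.ceil_eq_iff (by omega)]
  simp only [Nat.add_sub_cancel]
  rw [lt_div_iff₀ hp0, div_le_iff₀ hp0]
  constructor
  · rintro ⟨h1, h2⟩
    constructor
    · have : ((p * T : ℕ) : ℚ) < μ := by push_cast at h1 ⊢; linarith
      exact_mod_cast this
    · have : (μ : ℚ) ≤ ((p * (T + 1) : ℕ) : ℚ) := by push_cast at h2 ⊢; linarith
      exact_mod_cast this
  · rintro ⟨h1, h2⟩
    have h1' : ((p * T : ℕ) : ℚ) < μ := by exact_mod_cast h1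
    have h2' : (μ : ℚ) ≤ ((p * (T + 1) : ℕ) : ℚ) := by exact_mod_cast h2
    push_cast at h1' h2'
    constructor
    · linarith
    · push_cast; linarith

/-- For odd `g` and `μ ≥ g ≥ 3` the exceptional graphs exist exactly when `g = 3` or
`⌈μ / ⌊g/2⌋⌉ = ⌈μ / (⌊g/2⌋ + 1)⌉`. -/
theorem result (g μ : ℕ) (hg : 3 ≤ g) (hodd : g % 2 = 1) (hμ : g ≤ μ) :
    Exceptional g μ ↔
      g = 3 ∨ ⌈(μ : ℚ) / ((g / 2 : ℕ) : ℚ)⌉₊ = ⌈(μ : ℚ) / ((g / 2 + 1 : ℕ) : ℚ)⌉₊ := by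
  obtain ⟨p, rfl⟩ : ∃ p, g = 2 * p + 1 := ⟨g / 2, by omega⟩
  have hp : 1 ≤ p := by omega
  have e1 : (2 * p + 1) / 2 = p := by omega
  obtain ⟨t, ht⟩ : ∃ t, ⌈(μ : ℚ) / ((p : ℕ) : ℚ)⌉₊ = t := ⟨_, rfl⟩
  have ht0 : 0 < t := by
    rw [← ht, Nat.ceil_pos]
    have hp0 : (0 : ℚ) < (p : ℚ) := by exact_mod_cast hp
    have hμ0 : (0 : ℚ) < (μ : ℚ) := by exact_mod_cast (by omega : 0 < μ)
    positivity
  obtain ⟨T, rfl⟩ : ∃ T, t = T + 1 := ⟨t - 1, by omega⟩
  obtain ⟨h1, h2⟩ := (ceil_eq hp).1 ht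
  have hT : 1 ≤ T := by
    by_contra hcon
    have : T = 0 := by omega
    subst this
    omega
  unfold Exceptional
  rw [e1, ht]
  constructor
  · rintro ⟨V, E, _, _, G, Δ, χ, ⟨⟨hg1, hg2⟩, hg3⟩, hmul, hdeg, hχ, rfl, hno⟩
    by_contra hcon
    push Not at hcon
    obtain ⟨h3, h4⟩ := hcon
    have hp2 : 2 ≤ p := by omega
    have h5 : μ ≤ (p + 1) * T := by
      by_contra h6
      push Not at h6
      apply h4
      symm
      apply (ceil_eq (by omega)).2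
      refine ⟨h6, h2.trans ?_⟩
      exact Nat.mul_le_mul_right _ (by omega)
    apply hno
    apply ring_exists G hp2 hT h5 hdeg.1 hmul.1 (fun l hl hc => hg3 ⟨hl, hc⟩)
    · intro hc
      have := hχ.2 hc
      omega
    · exact hχ.1
  · intro h
    by_cases hp1 : p = 1
    · subst hp1
      have hT2 : T + 1 = μ := by omega
      refine ⟨_, _, inferInstance, inferInstance, five μ, 4 * μ, 5 * μ, ⟨⟨by norm_num, ?_⟩, ?_⟩,
        ⟨?_, ?_⟩, ⟨?_, ?_⟩, five_chrom μ, by omega, ?_⟩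
      · exact five_cycle (by omega)
      · rintro l ⟨hl, -⟩
        exact hl
      · exact fun u w h => (five_mult μ u w h).le
      · exact ⟨0, 1, by decide, five_mult μ 0 1 (by decide)⟩
      · exact fun u => (five_degree μ u).le
      · exact ⟨0, five_degree μ 0⟩
      · rintro ⟨W, F, R, hR1, hR2, hR3⟩
        have h3 := ring_three hR1 hR2 (fun u w h => (five_mult μ u w h).le)
        have := hR3.2 h3
        omega
    · have h3 : ⌈(μ : ℚ) / ((p + 1 : ℕ) : ℚ)⌉₊ = T + 1 := by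
        rcases h with h | h
        · omega
        · exact h.symm
      obtain ⟨h4, h5⟩ := (ceil_eq (by omega)).1 h3
      obtain ⟨V, E, hV, hE, G, hG1, hG2, hG3, hG4, hG5⟩ := long_short hp hT h4 h5
      exact ⟨V, E, hV, hE, G, 2 * μ, 2 * μ + (T + 1), hG1, hG2, hG3, hG4, rfl, hG5⟩

end Pool.Agent.Results.MP_7ce1ef_co.RingSubgraph
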